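import Pool.Agent.Helper82.NQ.St

/-!
# Project NQ, module EST: the estimate
-/

set_option autoImplicit false

namespace Pool.Agent.Helper45.NQ

open Finset Pool.Agent.Helper82.NQ

private lemma kk_aux (k : ℕ) : k * (k + 1) ≤ 3 * 2 ^ k := by
  have h : ∀ m : ℕ, 2 * (m + 1) ≤ 3 * 2 ^ m := by
    intro m
    induction m with
    | zero => norm_num
    | succ m ih =>
      rw [pow_succ]
      omega
  induction k with
  | zero => norm_num
  | succ k ih =>
    have := h k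
    rw [pow_succ]
    nlinarith

private lemma nat_bound (h : StENC) (x : ℕ) (hx : 1 ≤ x) (hk : 1 ≤ kk x) :
    (NC x).card ^ kk x ≤ x ^ 31 := by
  obtain ⟨L, hL⟩ : ∃ L, L = Nat.log 2 x := ⟨_, rfl⟩
  obtain ⟨M, hM⟩ : ∃ M, M = Nat.sqrt L := ⟨_, rfl⟩
  obtain ⟨k, hkk⟩ : ∃ k, k = Nat.log 2 M := ⟨_, rfl⟩
  have eM : MM x = M := by rw [hM, hL]; rfl
  have ek : kk x = k := by rw [hkk, ← eM]; rfl
  have henc := h x
  rw [ek] at hk henc ⊢
  rw [eM, ← hL] at henc
  have a : 2 ^ L ≤ x := by rw [hL]; exact Nat.pow_log_le_self 2 (by omega)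
  have b : M * M ≤ L := by rw [hM]; exact Nat.sqrt_le L
  have c : L < (M + 1) * (M + 1) := by rw [hM]; exact Nat.lt_succ_sqrt L
  have d : M < 2 ^ (k + 1) := by rw [hkk]; exact Nat.lt_pow_succ_log_self (by norm_num) M
  have hM0 : M ≠ 0 := by
    rintro rfl
    rw [Nat.log_zero_right] at hkk
    omega
  have e : 2 ^ k ≤ M := by rw [hkk]; exact Nat.pow_log_le_self 2 hM0
  have g : k ≤ 2 ^ k := Nat.lt_two_pow_self.le
  have f := kk_aux k
  -- the root
  obtain ⟨W, hW⟩ : ∃ W, W = Nat.findGreatest (fun w => w ^ k ≤ x) x := ⟨_, rfl⟩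
  have W1 : ∀ w : ℕ, w ^ k ≤ x → w ≤ W := by
    intro w hw
    rw [hW]
    exact Nat.le_findGreatest (le_trans (Nat.le_self_pow (by omega) w) hw) hw
  have W2 : W ^ k ≤ x := by
    rw [hW]
    exact Nat.findGreatest_spec (P := fun w => w ^ k ≤ x) (m := 1) hx (by rw [one_pow]; exact hx)
  have W3 : 1 ≤ W := W1 1 (by rw [one_pow]; exact hx)
  have hc := henc W hk W1
  have L1 : L + 1 ≤ 2 ^ (2 * (k + 1)) := by
    have h1 : M + 1 ≤ 2 ^ (k + 1) := d
    calc L + 1 ≤ (M + 1) * (M + 1) := c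
      _ ≤ 2 ^ (k + 1) * 2 ^ (k + 1) := Nat.mul_le_mul h1 h1
      _ = 2 ^ (2 * (k + 1)) := by rw [← pow_add]; congr 1; ring
  -- first factor
  have p1 : ((L + 1) ^ (2 * (M + 1))) ^ k ≤ x ^ 24 := by
    have h1 : (L + 1) ^ (2 * (M + 1)) ≤ 2 ^ (2 * (k + 1) * (2 * (M + 1))) := by
      rw [pow_mul 2 (2 * (k + 1)) (2 * (M + 1))]
      exact Nat.pow_le_pow_left L1 _
    have h2 : 2 * (k + 1) * (2 * (M + 1)) * k ≤ 24 * L := by
      have h3 : k * (k + 1) ≤ 3 * M := le_trans f (Nat.mul_le_mul_left 3 e)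
      have h4 : M + 1 ≤ 2 * M := by omega
      calc 2 * (k + 1) * (2 * (M + 1)) * k = 4 * ((k * (k + 1)) * (M + 1)) := by ring
        _ ≤ 4 * ((3 * M) * (2 * M)) := Nat.mul_le_mul_left 4 (Nat.mul_le_mul h3 h4)
        _ = 24 * (M * M) := by ring
        _ ≤ 24 * L := Nat.mul_le_mul_left 24 b
    calc ((L + 1) ^ (2 * (M + 1))) ^ k ≤ (2 ^ (2 * (k + 1) * (2 * (M + 1)))) ^ k := Nat.pow_le_pow_left h1 _
      _ = 2 ^ (2 * (k + 1) * (2 * (M + 1)) * k) := by rw [← pow_mul]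
      _ ≤ 2 ^ (24 * L) := Nat.pow_le_pow_right (by norm_num) h2
      _ = (2 ^ L) ^ 24 := by rw [← pow_mul]; congr 1; ring
      _ ≤ x ^ 24 := Nat.pow_le_pow_left a _
  -- second factor
  have hLx : L ≤ x := le_trans (Nat.lt_two_pow_self.le) a
  have hML : M ≤ L := le_trans (Nat.le_mul_self M) b
  have p2 : (W + 1) ^ k ≤ x ^ 2 := by
    calc (W + 1) ^ k ≤ (2 * W) ^ k := Nat.pow_le_pow_left (by omega) _
      _ = 2 ^ k * W ^ k := mul_pow _ _ _
      _ ≤ x * x := Nat.mul_le_mul (le_trans e (le_trans hML hLx)) W2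
      _ = x ^ 2 := by ring
  -- third factor
  have p3 : ((k * (L + 1)) ^ (L / k ^ 2)) ^ k ≤ x ^ 5 := by
    have h1 : k * (L + 1) ≤ 2 ^ (5 * k) := by
      calc k * (L + 1) ≤ 2 ^ k * 2 ^ (2 * (k + 1)) := Nat.mul_le_mul g L1
        _ = 2 ^ (k + 2 * (k + 1)) := by rw [← pow_add]
        _ ≤ 2 ^ (5 * k) := Nat.pow_le_pow_right (by norm_num) (by omega)
    have h2 : 5 * k * (L / k ^ 2 * k) ≤ 5 * L := by
      calc 5 * k * (L / k ^ 2 * k) = 5 * (L / k ^ 2 * k ^ 2) := by ring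
        _ ≤ 5 * L := Nat.mul_le_mul_left 5 (Nat.div_mul_le_self L (k ^ 2))
    calc ((k * (L + 1)) ^ (L / k ^ 2)) ^ k = (k * (L + 1)) ^ (L / k ^ 2 * k) := by rw [← pow_mul]
      _ ≤ (2 ^ (5 * k)) ^ (L / k ^ 2 * k) := Nat.pow_le_pow_left h1 _
      _ = 2 ^ (5 * k * (L / k ^ 2 * k)) := by rw [← pow_mul]
      _ ≤ 2 ^ (5 * L) := Nat.pow_le_pow_right (by norm_num) h2
      _ = (2 ^ L) ^ 5 := by rw [← pow_mul]; congr 1; ring
      _ ≤ x ^ 5 := Nat.pow_le_pow_left a _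
  calc (NC x).card ^ k ≤ ((L + 1) ^ (2 * (M + 1)) * (W + 1) * (k * (L + 1)) ^ (L / k ^ 2)) ^ k :=
        Nat.pow_le_pow_left hc _
    _ = ((L + 1) ^ (2 * (M + 1))) ^ k * (W + 1) ^ k * ((k * (L + 1)) ^ (L / k ^ 2)) ^ k := by
        rw [mul_pow, mul_pow]
    _ ≤ x ^ 24 * x ^ 2 * x ^ 5 := Nat.mul_le_mul (Nat.mul_le_mul p1 p2) p3
    _ = x ^ 31 := by ring

private lemma loglog_le (x : ℕ) (hx : 3 ≤ x) (hk : 1 ≤ kk x) :
    Real.log (Real.log x) ≤ 3 * (kk x : ℝ) := by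
  obtain ⟨L, hL⟩ : ∃ L, L = Nat.log 2 x := ⟨_, rfl⟩
  obtain ⟨M, hM⟩ : ∃ M, M = Nat.sqrt L := ⟨_, rfl⟩
  obtain ⟨k, hkk⟩ : ∃ k, k = Nat.log 2 M := ⟨_, rfl⟩
  have eM : MM x = M := by rw [hM, hL]; rfl
  have ek : kk x = k := by rw [hkk, ← eM]; rfl
  rw [ek] at hk ⊢
  have c : L < (M + 1) * (M + 1) := by rw [hM]; exact Nat.lt_succ_sqrt L
  have d : M < 2 ^ (k + 1) := by rw [hkk]; exact Nat.lt_pow_succ_log_self (by norm_num) M
  have a : x < 2 ^ (L + 1) := by rw [hL]; exact Nat.lt_pow_succ_log_self (by norm_num) x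
  have L1 : L + 1 ≤ 4 ^ (k + 1) := by
    have h1 : M + 1 ≤ 2 ^ (k + 1) := d
    calc L + 1 ≤ (M + 1) * (M + 1) := c
      _ ≤ 2 ^ (k + 1) * 2 ^ (k + 1) := Nat.mul_le_mul h1 h1
      _ = 4 ^ (k + 1) := by rw [← mul_pow]; norm_num
  have x0 : (0 : ℝ) < x := by exact_mod_cast (by omega : 0 < x)
  have l2 : Real.log 2 < 0.6931471808 := Real.log_two_lt_d9
  have l20 : 0 < Real.log 2 := Real.log_pos (by norm_num)
  have h1 : Real.log x ≤ 4 ^ (k + 1) := by
    have h2 : (x : ℝ) ≤ (2 : ℝ) ^ (L + 1) := by exact_mod_cast a.le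
    calc Real.log x ≤ Real.log ((2 : ℝ) ^ (L + 1)) := Real.log_le_log x0 h2
      _ = ((L + 1 : ℕ) : ℝ) * Real.log 2 := by rw [Real.log_pow]
      _ ≤ ((L + 1 : ℕ) : ℝ) * 1 := by
          apply mul_le_mul_of_nonneg_left (by linarith) (Nat.cast_nonneg _)
      _ ≤ 4 ^ (k + 1) := by
          rw [mul_one]
          exact_mod_cast L1
  have hl0 : 0 < Real.log x := Real.log_pos (by exact_mod_cast (by omega : 1 < x))
  have hk1 : (1 : ℝ) ≤ k := by exact_mod_cast hk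
  calc Real.log (Real.log x) ≤ Real.log ((4 : ℝ) ^ (k + 1)) := Real.log_le_log hl0 h1
    _ = ((k + 1 : ℕ) : ℝ) * Real.log 4 := by rw [Real.log_pow]
    _ = ((k : ℝ) + 1) * (2 * Real.log 2) := by
        have : (4 : ℝ) = 2 ^ 2 := by norm_num
        rw [this, Real.log_pow]
        push_cast
        ring
    _ ≤ (2 * (k : ℝ)) * (2 * 0.6931471808) := by
        apply mul_le_mul (by linarith) (by linarith) (by positivity) (by positivity)
    _ ≤ 3 * (k : ℝ) := by nlinarith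

/-- Module EST. -/
theorem hEST (h : StENC) : StEST := by
  refine ⟨93, by norm_num, fun x hx => ?_⟩
  have x0 : (0 : ℝ) < x := by exact_mod_cast (by omega : 0 < x)
  have x1 : (1 : ℝ) ≤ x := by exact_mod_cast (by omega : 1 ≤ x)
  have l1 : 1 < Real.log x := by
    rw [Real.lt_log_iff_exp_lt x0]
    have h3 : (3 : ℝ) ≤ x := by exact_mod_cast hx
    have := Real.exp_one_lt_d9
    linarith
  have ll : 0 < Real.log (Real.log x) := Real.log_pos l1
  rcases Nat.eq_zero_or_pos (kk x) with h0 | hk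
  · -- small values
    have hx16 : x < 16 := by
      by_contra hcon
      push Not at hcon
      have h1 : 4 ≤ Nat.log 2 x := by
        calc 4 = Nat.log 2 16 := by decide
          _ ≤ Nat.log 2 x := Nat.log_mono_right hcon
      have h2 : 2 ≤ MM x := by
        unfold MM
        exact Nat.le_sqrt.2 h1
      have h3 : 1 ≤ kk x := by
        unfold kk
        exact Nat.log_pos (by norm_num) h2
      omega
    have hcard : ((NC x).card : ℝ) ≤ x := by
      have h1 : (NC x).card ≤ (Icc 1 x).card := by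
        classical
        have hsub : NC x ⊆ Icc 1 x := by
          intro n hn
          unfold NC at hn
          exact (Finset.mem_filter.1 hn).1
        exact Finset.card_le_card hsub
      rw [Nat.card_Icc, Nat.add_sub_cancel] at h1
      exact_mod_cast h1
    refine hcard.trans ?_
    have hC : 1 ≤ 93 / Real.log (Real.log x) := by
      rw [le_div_iff₀ ll, one_mul]
      have h1 : Real.log (Real.log x) ≤ Real.log x := Real.log_le_self (by linarith)
      have h2 : Real.log x ≤ x := Real.log_le_self (by linarith)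
      have h3 : (x : ℝ) < 16 := by exact_mod_cast hx16
      linarith
    calc (x : ℝ) = (x : ℝ) ^ (1 : ℝ) := (Real.rpow_one _).symm
      _ ≤ (x : ℝ) ^ (93 / Real.log (Real.log x)) := Real.rpow_le_rpow_of_exponent_le x1 hC
  · have hb := nat_bound h x (by omega) hk
    have hll := loglog_le x hx hk
    have hk0 : (0 : ℝ) < kk x := by exact_mod_cast hk
    have h1 : (((NC x).card : ℝ)) ^ (kk x) ≤ (x : ℝ) ^ 31 := by exact_mod_cast hb
    have h2 : ((NC x).card : ℝ) ≤ (x : ℝ) ^ ((31 : ℝ) / kk x) := by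
      have h3 : ((x : ℝ) ^ ((31 : ℝ) / kk x)) ^ (kk x) = (x : ℝ) ^ 31 := by
        rw [← Real.rpow_natCast ((x : ℝ) ^ ((31 : ℝ) / kk x)) (kk x), ← Real.rpow_mul x0.le,
          div_mul_cancel₀ _ hk0.ne']
        exact_mod_cast Real.rpow_natCast (x : ℝ) 31
      rw [← h3] at h1
      exact le_of_pow_le_pow_left₀ (by omega) (Real.rpow_nonneg x0.le _) h1
    refine h2.trans (Real.rpow_le_rpow_of_exponent_le x1 ?_)
    rw [div_le_div_iff₀ hk0 ll]
    nlinarith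

end Pool.Agent.Helper45.NQ
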